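import Pool.Agent.Lib.MP_78c6b1_al.Cover

set_option autoImplicit false

namespace Pool.Agent.Results.MP_78c6b1_al.Cofinite

/-- For every prime p, all sufficiently large a are abundances of finite p-groups. -/
theorem result :
    ∀ p : ℕ, p.Prime → ∃ a₀ : ℕ, ∀ a : ℕ, a₀ ≤ a →
      ∃ (G : Type) (_ : Group G) (_ : Finite G) (m : ℕ),
        Nat.card G = p ^ m ∧
        (Nat.card (ConjClasses G) : ℤ) =
          ((m / 2 : ℕ) : ℤ) * ((p : ℤ) ^ 2 - 1) + (p : ℤ) ^ (m % 2)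
            + (a : ℤ) * ((p : ℤ) ^ 2 - 1) * ((p : ℤ) - 1) := by
  intro p hp
  have : Fact p.Prime := ⟨hp⟩
  obtain ⟨a0, h⟩ := Pool.Agent.Lib.MP_78c6b1_al.attained_large (F := ZMod p)
  rw [ZMod.card] at h
  exact ⟨a0, fun a ha => h a ha⟩

end Pool.Agent.Results.MP_78c6b1_al.Cofinite
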