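import Pool.Agent.Lib.MP_78c6b1_al.Final

/-! For all large primes no finite `p`-group has abundance between `0.72 p` and `0.78 p`. -/

namespace Pool.Agent.Results.MP_78c6b1_al.GapWindow

theorem result :
    ∃ p₀ : ℕ, ∀ p : ℕ, p.Prime → p₀ ≤ p → ∀ a : ℕ, 72 * p ≤ 100 * a → 100 * a ≤ 78 * p →
      ∀ (G : Type) [Group G] [Finite G] (m : ℕ), Nat.card G = p ^ m →
        (Nat.card (ConjClasses G) : ℤ) ≠
          ((m / 2 : ℕ) : ℤ) * ((p : ℤ) ^ 2 - 1) + (p : ℤ) ^ (m % 2)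
            + (a : ℤ) * ((p : ℤ) ^ 2 - 1) * ((p : ℤ) - 1) :=
  Pool.Agent.P78.gap_of_class Pool.Agent.P78.classStmt

end Pool.Agent.Results.MP_78c6b1_al.GapWindow
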