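import Pool.Agent.Lib.MP_78c6b1_al.TwoD5

set_option autoImplicit false

namespace Pool.Agent.Results.MP_78c6b1_al.PrimeTwo

/-- Every natural number is the abundance of a finite 2-group. -/
theorem result :
    ∀ a : ℕ, ∃ (G : Type) (_ : Group G) (_ : Finite G) (m : ℕ),
        Nat.card G = 2 ^ m ∧
        (Nat.card (ConjClasses G) : ℤ) =
          ((m / 2 : ℕ) : ℤ) * ((2 : ℤ) ^ 2 - 1) + (2 : ℤ) ^ (m % 2)
            + (a : ℤ) * ((2 : ℤ) ^ 2 - 1) * ((2 : ℤ) - 1) := by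
  intro a
  obtain ⟨G, i1, i2, m, h1, h2⟩ := Pool.Agent.Lib.MP_78c6b1_al.Two.att_all a
  refine ⟨G, i1, i2, m, h1, ?_⟩
  rw [h2]
  push_cast
  ring

end Pool.Agent.Results.MP_78c6b1_al.PrimeTwo
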